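import Pool.Agent.Lib.MP_391fb1_pr.Fin2
import Pool.Agent.Lib.MP_391fb1_pr.N4
import Pool.Agent.Lib.MP_391fb1_pr.N56

/-!
# Entropy of weighted sums of independent uniform variables

For independent `U_1, ..., U_n`, uniform on `[-1,1]`, and real weights `a`, not all zero, the sum
`∑ a_i U_i` has a density, its entropy is finite, and
`h(∑ a_i U_i) ≤ h(n^{-1/2} ∑ U_i) + ln ‖a‖`. For `n ≥ 2` the right side is
`ln ‖a‖ - (1/2) ln n - ∫_{-n}^{n} B_n ln B_n` with the explicit density `B_n` of `U_1 + ... + U_n`.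
-/

set_option autoImplicit false

namespace Pool.Agent.Results.MP_391fb1_pr.MaximalEntropy

open MeasureTheory ProbabilityTheory Set

/-- The function `f` is a density of the random variable `X`. -/
def IsDensity {Ω : Type*} [MeasurableSpace Ω] (P : Measure Ω) (X : Ω → ℝ) (f : ℝ → ℝ) : Prop :=
  Measurable f ∧ (∀ x, 0 ≤ f x) ∧
    ∀ A : Set ℝ, MeasurableSet A → P {ω | X ω ∈ A} = ∫⁻ x in A, ENNReal.ofReal (f x)

/-- The differential entropy of a density. -/
noncomputable def entropy (f : ℝ → ℝ) : ℝ := - ∫ x, f x * Real.log (f x)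

/-- The random variable `X` is uniformly distributed on `[-1,1]`. -/
def Uniform {Ω : Type*} [MeasurableSpace Ω] (P : Measure Ω) (X : Ω → ℝ) : Prop :=
  Measurable X ∧ ∀ A : Set ℝ, MeasurableSet A → P {ω | X ω ∈ A} = volume (A ∩ Icc (-1) 1) / 2

/-- The random variables `U_1, ..., U_n` are independent. -/
def Independent {Ω : Type*} [MeasurableSpace Ω] (P : Measure Ω) {n : ℕ} (U : Fin n → Ω → ℝ) :
    Prop :=
  ∀ A : Fin n → Set ℝ, (∀ i, MeasurableSet (A i)) →
    P {ω | ∀ i, U i ω ∈ A i} = ∏ i, P {ω | U i ω ∈ A i}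

/-- The density `2^{-n} / (n-1)! * ∑_k (-1)^k C(n,k) (x + n - 2k)_+^{n-1}` of `U_1 + ... + U_n`. -/
noncomputable def B (n : ℕ) (x : ℝ) : ℝ :=
  1 / (2 ^ n * ((n - 1).factorial : ℝ)) *
    ∑ k ∈ Finset.range (n + 1), (-1 : ℝ) ^ k * (n.choose k : ℝ) * (max (x + n - 2 * k) 0) ^ (n - 1)

open Pool.Agent.Lib.MP391fb1

theorem isUniform_of {Ω : Type*} [MeasurableSpace Ω] {P : Measure Ω} {X : Ω → ℝ}
    (h : Uniform P X) : pdf.IsUniform X (Icc (-1 : ℝ) 1) P volume := by
  unfold pdf.IsUniform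
  ext A hA
  rw [Measure.map_apply h.1 hA]
  have h1 := h.2 A hA
  have h2 : X ⁻¹' A = {ω | X ω ∈ A} := rfl
  rw [h2, h1, ProbabilityTheory.cond_apply measurableSet_Icc, vol_Icc_two, ENNReal.div_eq_inv_mul,
    inter_comm]

theorem indep_of {Ω : Type*} [MeasurableSpace Ω] {P : Measure Ω} [IsProbabilityMeasure P] {n : ℕ}
    {U : Fin n → Ω → ℝ} (h : Independent P U) : iIndepFun U P := by
  rw [iIndepFun_iff_measure_inter_preimage_eq_mul]
  intro S A hA
  classical
  have h1 := h (fun i => if i ∈ S then A i else univ) (by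
    intro i
    by_cases hi : i ∈ S
    · simp only [hi, if_true]; exact hA i hi
    · simp only [hi, if_false]; exact MeasurableSet.univ)
  have h2 : {ω | ∀ i, U i ω ∈ (fun i => if i ∈ S then A i else univ) i} =
      ⋂ i ∈ S, U i ⁻¹' A i := by
    ext ω
    simp only [Set.mem_ofPred_eq, mem_iInter, mem_preimage]
    constructor
    · intro hω i hi
      have := hω i
      simpa [hi] using this
    · intro hω i
      by_cases hi : i ∈ S
      · simpa [hi] using hω i hi
      · simp [hi]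
  rw [h2] at h1
  rw [h1]
  have h3 : ∀ i, P {ω | U i ω ∈ (fun i => if i ∈ S then A i else univ) i} =
      if i ∈ S then P (U i ⁻¹' A i) else 1 := by
    intro i
    by_cases hi : i ∈ S
    · simp only [hi, if_true]; rfl
    · simp [hi]
  rw [Finset.prod_congr rfl (fun i _ => h3 i), Finset.prod_ite_mem, Finset.univ_inter]

/-- the law of a variable with density `f` -/
theorem map_eq {Ω : Type*} [MeasurableSpace Ω] {P : Measure Ω} {X : Ω → ℝ} {f : ℝ → ℝ}
    (hX : Measurable X) (h : IsDensity P X f) :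
    P.map X = volume.withDensity fun x => ENNReal.ofReal (f x) := by
  ext A hA
  rw [Measure.map_apply hX hA, withDensity_apply _ hA]
  exact h.2.2 A hA

theorem rn_eq {μ : Measure ℝ} {f : ℝ → ℝ} (hf : Measurable f) (h0 : ∀ x, 0 ≤ f x)
    (h : μ = volume.withDensity fun x => ENNReal.ofReal (f x)) :
    ∀ᵐ x ∂(volume : Measure ℝ), (μ.rnDeriv volume x).toReal = f x := by
  have hrn := Measure.rnDeriv_withDensity (volume : Measure ℝ) hf.ennreal_ofReal
  rw [← h] at hrn
  filter_upwards [hrn] with x hx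
  rw [hx, ENNReal.toReal_ofReal (h0 x)]

theorem entropy_eq {μ : Measure ℝ} {f : ℝ → ℝ} (hf : Measurable f) (h0 : ∀ x, 0 ≤ f x)
    (h : μ = volume.withDensity fun x => ENNReal.ofReal (f x)) : entropy f = Hent μ := by
  unfold entropy Hent
  congr 1
  apply integral_congr_ae
  filter_upwards [rn_eq hf h0 h] with x hx
  rw [hx]

/-- a law with a bounded density and bounded support has a finite entropy -/
theorem fin_entropy {μ : Measure ℝ} [IsProbabilityMeasure μ] {C : ENNReal} (hC : C ≠ ⊤)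
    (hμ : μ ≤ C • (volume : Measure ℝ)) {R : ℝ} (hR : ∀ᵐ x ∂μ, x ∈ Icc (-R) R) {f : ℝ → ℝ}
    (hf : Measurable f) (h0 : ∀ x, 0 ≤ f x)
    (h : μ = volume.withDensity fun x => ENNReal.ofReal (f x)) :
    Integrable f ∧ ∫ x, f x = 1 ∧ Integrable (fun x => f x * Real.log (f x)) := by
  have hbd : ∀ᵐ x ∂(volume : Measure ℝ), f x ≤ C.toReal := by
    have h1 : μ.rnDeriv volume ≤ᵐ[volume] fun _ => C := by
      refine ae_le_of_forall_setLIntegral_le_of_sigmaFinite (Measure.measurable_rnDeriv _ _) ?_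
      intro s hs _
      rw [lintegral_const, Measure.restrict_apply_univ]
      exact (Measure.setLIntegral_rnDeriv_le s).trans (hμ s)
    filter_upwards [h1, rn_eq hf h0 h] with x hx hx2
    rw [← hx2]
    exact ENNReal.toReal_mono hC hx
  have hout : ∀ᵐ x ∂(volume : Measure ℝ), x ∉ Icc (-R) R → f x = 0 := by
    have h1 : ∫⁻ x in (Icc (-R) R)ᶜ, ENNReal.ofReal (f x) = 0 := by
      rw [← withDensity_apply _ measurableSet_Icc.compl, ← h]
      exact hR
    rw [lintegral_eq_zero_iff hf.ennreal_ofReal] at h1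
    rw [Filter.EventuallyEq, ae_restrict_iff' measurableSet_Icc.compl] at h1
    filter_upwards [h1] with x hx hxn
    have h2 := hx hxn
    have h3 : f x ≤ 0 := by simpa using h2
    exact le_antisymm h3 (h0 x)
  have hfin : IsFiniteMeasure ((volume : Measure ℝ).restrict (Icc (-R) R)) :=
    ⟨by rw [Measure.restrict_apply_univ]; exact measure_Icc_lt_top⟩
  have hi : Integrable f := by
    refine ⟨hf.aestronglyMeasurable, ?_⟩
    rw [hasFiniteIntegral_iff_ofReal (Filter.Eventually.of_forall h0)]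
    have h1 : ∫⁻ x, ENNReal.ofReal (f x) = μ univ := by
      rw [h, withDensity_apply _ MeasurableSet.univ, Measure.restrict_univ]
    rw [h1]
    exact measure_lt_top _ _
  refine ⟨hi, ?_, ?_⟩
  · rw [integral_eq_lintegral_of_nonneg_ae (Filter.Eventually.of_forall h0)
      hf.aestronglyMeasurable]
    have h1 : ∫⁻ x, ENNReal.ofReal (f x) = μ univ := by
      rw [h, withDensity_apply _ MeasurableSet.univ, Measure.restrict_univ]
    rw [h1, measure_univ, ENNReal.toReal_one]
  · obtain ⟨K2, hK2⟩ := (isCompact_Icc (a := (0:ℝ)) (b := C.toReal)).exists_bound_of_continuousOn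
      Real.continuous_mul_log.continuousOn
    have hipp : IntegrableOn (fun x => f x * Real.log (f x)) (Icc (-R) R) := by
      refine Integrable.of_bound (hf.mul hf.log).aestronglyMeasurable K2 ?_
      filter_upwards [ae_restrict_of_ae hbd] with x hx
      exact hK2 _ ⟨h0 x, hx⟩
    rw [← integrable_indicator_iff measurableSet_Icc] at hipp
    refine hipp.congr ?_
    filter_upwards [hout] with x hx
    by_cases hxR : x ∈ Icc (-R) R
    · rw [indicator_of_mem hxR]
    · rw [indicator_of_notMem hxR, hx hxR, zero_mul]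

theorem exists_density {μ : Measure ℝ} [IsProbabilityMeasure μ] {C : ENNReal}
    (hμ : μ ≤ C • (volume : Measure ℝ)) :
    ∃ f : ℝ → ℝ, Measurable f ∧ (∀ x, 0 ≤ f x) ∧
      μ = volume.withDensity fun x => ENNReal.ofReal (f x) := by
  have hac : μ ≪ volume := (Measure.absolutelyContinuous_of_le hμ).trans
    (Measure.smul_absolutelyContinuous)
  refine ⟨fun x => (μ.rnDeriv volume x).toReal,
    (Measure.measurable_rnDeriv _ _).ennreal_toReal, fun x => ENNReal.toReal_nonneg, ?_⟩
  conv_lhs => rw [← Measure.withDensity_rnDeriv_eq μ volume hac]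
  apply withDensity_congr_ae
  filter_upwards [Measure.rnDeriv_lt_top μ volume] with x hx
  rw [ENNReal.ofReal_toReal hx.ne]

/-- scaling -/
theorem scale {f : ℝ → ℝ} {s : ℝ} (hs : 0 < s) (hi : Integrable f)
    (h1 : ∫ x, f x = 1) (hl : Integrable (fun x => f x * Real.log (f x))) :
    entropy (fun x => s * f (s * x)) = entropy f - Real.log s := by
  unfold entropy
  have e1 : ∀ x, s * f (s * x) * Real.log (s * f (s * x)) =
      s * ((fun y => f y * Real.log (f y) + Real.log s * f y) (s * x)) := by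
    intro x
    simp only
    rcases eq_or_ne (f (s * x)) 0 with h | h
    · rw [h]; simp
    · rw [Real.log_mul hs.ne' h]; ring
  simp_rw [e1]
  rw [integral_const_mul, Measure.integral_comp_mul_left
    (fun y => f y * Real.log (f y) + Real.log s * f y) s, abs_of_pos (inv_pos.2 hs), smul_eq_mul,
    mul_inv_cancel_left₀ hs.ne', integral_add hl (hi.const_mul _), integral_const_mul, h1]
  ring

theorem scale_density {Ω : Type*} [MeasurableSpace Ω] {P : Measure Ω} {X Y : Ω → ℝ} {f : ℝ → ℝ}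
    {s : ℝ} (hs : 0 < s) (hXY : ∀ ω, X ω = s * Y ω) (h : IsDensity P X f) :
    IsDensity P Y (fun x => s * f (s * x)) := by
  refine ⟨by have := h.1; fun_prop, fun x => mul_nonneg hs.le (h.2.1 _), fun A hA => ?_⟩
  have h1 := h.2.2 ((fun x => s⁻¹ * x) ⁻¹' A) ((measurable_const_mul _) hA)
  have h2 : {ω | Y ω ∈ A} = {ω | X ω ∈ (fun x => s⁻¹ * x) ⁻¹' A} := by
    ext ω
    simp only [Set.mem_ofPred_eq, mem_preimage, hXY, inv_mul_cancel_left₀ hs.ne']
  rw [h2, h1, ← lintegral_indicator ((measurable_const_mul _) hA), ← lintegral_indicator hA]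
  have h3 : Measurable (((fun x => s⁻¹ * x) ⁻¹' A).indicator fun x => ENNReal.ofReal (f x)) :=
    h.1.ennreal_ofReal.indicator ((measurable_const_mul _) hA)
  have h4 := lintegral_map h3 (measurable_const_mul s) (μ := (volume : Measure ℝ))
  rw [Real.map_volume_mul_left hs.ne', lintegral_smul_measure, abs_of_pos (inv_pos.2 hs)] at h4
  have h5 : ∫⁻ x, (((fun x => s⁻¹ * x) ⁻¹' A).indicator fun x => ENNReal.ofReal (f x)) x =
      ENNReal.ofReal s * (ENNReal.ofReal s⁻¹ *
        ∫⁻ x, (((fun x => s⁻¹ * x) ⁻¹' A).indicator fun x => ENNReal.ofReal (f x)) x) := by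
    rw [← mul_assoc, ← ENNReal.ofReal_mul hs.le, mul_inv_cancel₀ hs.ne', ENNReal.ofReal_one,
      one_mul]
  rw [h5]
  rw [smul_eq_mul] at h4
  rw [h4, ← lintegral_const_mul']
  · congr 1
    funext x
    by_cases hx : x ∈ A
    · rw [indicator_of_mem hx, indicator_of_mem (by
        simpa [mem_preimage, inv_mul_cancel_left₀ hs.ne'] using hx), ENNReal.ofReal_mul hs.le]
    · rw [indicator_of_notMem hx, indicator_of_notMem (by
        simpa [mem_preimage, inv_mul_cancel_left₀ hs.ne'] using hx), mul_zero]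
  · exact ENNReal.ofReal_ne_top

universe u

/-- **Theorem.** Let `U_1, ..., U_n` be independent and uniform on `[-1,1]`, and let `a` be a
nonzero real vector. Then `∑ a_i U_i` and `n^{-1/2} ∑ U_i` have densities, their entropies are
given by convergent integrals, and `h(∑ a_i U_i) ≤ h(n^{-1/2} ∑ U_i) + ln ‖a‖`; for `n ≥ 2` the
entropy of `n^{-1/2} ∑ U_i` is `-(1/2) ln n - ∫_{-n}^n B_n ln B_n`. -/
theorem result : ∀ (Ω : Type u) [MeasurableSpace Ω] (P : Measure Ω) [IsProbabilityMeasure P]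
    (n : ℕ) (U : Fin n → Ω → ℝ), (∀ i, Uniform P (U i)) → Independent P U →
    ∀ a : Fin n → ℝ, (∃ i, a i ≠ 0) →
      (∃ f, IsDensity P (fun ω => ∑ i, a i * U i ω) f) ∧
      (∃ g, IsDensity P (fun ω => (√(n : ℝ))⁻¹ * ∑ i, U i ω) g) ∧
      ∀ f g : ℝ → ℝ, IsDensity P (fun ω => ∑ i, a i * U i ω) f →
        IsDensity P (fun ω => (√(n : ℝ))⁻¹ * ∑ i, U i ω) g →
        Integrable (fun x => f x * Real.log (f x)) ∧
        Integrable (fun x => g x * Real.log (g x)) ∧
        entropy f ≤ entropy g + Real.log √(∑ i, a i ^ 2) ∧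
        (2 ≤ n → entropy g = - (1 / 2) * Real.log n -
          ∫ x in (-(n : ℝ))..n, B n x * Real.log (B n x)) := by
  intro Ω _ P _ n U hU hI a ha
  obtain ⟨i0, hi0⟩ := ha
  have hm : ∀ i, Measurable (U i) := fun i => (hU i).1
  have hi := indep_of hI
  have hu := fun i => isUniform_of (hU i)
  have hn : 0 < n := Nat.lt_of_le_of_lt (Nat.zero_le _) i0.2
  have hn0 : (0 : ℝ) < n := by exact_mod_cast hn
  have hsn : 0 < √(n : ℝ) := Real.sqrt_pos.2 hn0
  have hlaw := law_eq P U hm hi hu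
  have e0 : (fun ω => (√(n : ℝ))⁻¹ * ∑ i, U i ω)
      = fun ω => ∑ i, (fun _ : Fin n => (√(n : ℝ))⁻¹) i * U i ω := by
    funext ω
    rw [Finset.mul_sum]
  have hmea : ∀ d : Fin n → ℝ, Measurable (fun ω => ∑ i, d i * U i ω) := by
    intro d
    fun_prop
  have hdens : ∀ d : Fin n → ℝ, (∃ i, d i ≠ 0) →
      ∃ f, IsDensity P (fun ω => ∑ i, d i * U i ω) f := by
    rintro d ⟨i, hdi⟩
    obtain ⟨f, hf, hf0, hμ⟩ := exists_density (L_le d i hdi)
    refine ⟨f, hf, hf0, fun A hA => ?_⟩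
    have h1 : P {ω | ∑ i, d i * U i ω ∈ A} = (P.map (fun ω => ∑ i, d i * U i ω)) A := by
      rw [Measure.map_apply (hmea d) hA]
      rfl
    rw [h1, hlaw d, hμ, withDensity_apply _ hA]
  have hprop : ∀ d : Fin n → ℝ, (∃ i, d i ≠ 0) → ∀ f : ℝ → ℝ,
      IsDensity P (fun ω => ∑ i, d i * U i ω) f →
      (Integrable f ∧ ∫ x, f x = 1 ∧ Integrable (fun x => f x * Real.log (f x))) ∧
        entropy f = Hent (L d) := by
    rintro d ⟨i, hdi⟩ f hf
    have h1 := map_eq (hmea d) hf
    rw [hlaw d] at h1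
    refine ⟨fin_entropy ?_ (L_le d i hdi) (L_support d) hf.1 hf.2.1 h1,
      entropy_eq hf.1 hf.2.1 h1⟩
    exact ENNReal.mul_ne_top (by norm_num) ENNReal.ofReal_ne_top
  have hcne : ∃ i, (fun _ : Fin n => (√(n : ℝ))⁻¹) i ≠ 0 := ⟨i0, (inv_pos.2 hsn).ne'⟩
  rw [e0]
  refine ⟨hdens a ⟨i0, hi0⟩, hdens _ hcne, fun f g hf hg => ?_⟩
  obtain ⟨⟨hfi, hf1, hfl⟩, hfe⟩ := hprop a ⟨i0, hi0⟩ f hf
  obtain ⟨⟨hgi, hg1, hgl⟩, hge⟩ := hprop _ hcne g hg
  have hpos : 0 < ∑ i, a i ^ 2 :=
    Finset.sum_pos' (fun i _ => sq_nonneg _) ⟨i0, Finset.mem_univ _, by positivity⟩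
  set s : ℝ := √(∑ i, a i ^ 2) with hs
  have hs0 : 0 < s := Real.sqrt_pos.2 hpos
  refine ⟨hfl, hgl, ?_, ?_⟩
  · have hd : ∑ i, (a i / s) ^ 2 = 1 := by
      simp_rw [div_pow]
      rw [← Finset.sum_div, hs, Real.sq_sqrt hpos.le, div_self hpos.ne']
    have h1 := assembly ineq4 ineq5 ineq6 hd
    have h2 : IsDensity P (fun ω => ∑ i, (a i / s) * U i ω) (fun x => s * f (s * x)) := by
      refine scale_density hs0 (fun ω => ?_) hf
      rw [Finset.mul_sum]
      refine Finset.sum_congr rfl fun i _ => ?_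
      field_simp
    have h3 := (hprop (fun i => a i / s) ⟨i0, div_ne_zero hi0 hs0.ne'⟩ _ h2).2
    rw [scale hs0 hfi hf1 hfl] at h3
    rw [← h3, ← hge] at h1
    linarith
  · intro h2
    rw [hge, Hent_replicate_L n h2, Real.log_sqrt hn0.le]
    unfold Hn
    have h3 : ∀ x, bs n 0 x = B n x := by
      intro x
      unfold bs B
      simp
    have h4 : (∫ x in (-(n : ℝ))..n, Real.negMulLog (bs n 0 x)) =
        - ∫ x in (-(n : ℝ))..n, B n x * Real.log (B n x) := by
      rw [← intervalIntegral.integral_neg]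
      apply intervalIntegral.integral_congr
      intro x _
      simp only [Real.negMulLog, h3]
      ring
    rw [h4]
    ring

end Pool.Agent.Results.MP_391fb1_pr.MaximalEntropy
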